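import Mathlib
import Pool.Agent.Helper40.CX.CHI.Defs
import Pool.Agent.Helper40.CX.H83VN.Pnt
import Pool.Agent.Helper40.CX.H83QF.Phi

/-!
# CHI: the projection of the base change, and lifts with fixed product

`downC` is the morphism `(u0 : u1; x : y : z) ↦ (u0 ^ m : u1 ^ m; x : y : z)` from the surface
`pull W m` to `W`. `Rel` : `q` is a lift of `p` such that the product of the coordinates `u0 / u1` is
`w0`. Two lifts differ by powers of the rotation, and the sum of the exponents is divisible by `m`.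
-/

set_option autoImplicit false
set_option linter.unusedSectionVars false

namespace CX.CHI

open CX.VC CX.VF Function
open CX.Pool.Agent.Helper51.EW

universe u

section down

variable {k : Type u} [Field k] {W : Wei k} {m : ℕ} {K : Type u} [Field K] [Algebra k K]

/-- The morphism `(u0 : u1; x : y : z) ↦ (u0 ^ m : u1 ^ m; x : y : z)` on coordinates. -/
def downC (_hm : m ≠ 0) (a : Coord (pull W m) K) : Coord W K where
  u := fun i => a.u i ^ m
  w := a.w
  u_ne := by
    obtain ⟨j, hj⟩ := Function.ne_iff.mp a.u_ne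
    exact Function.ne_iff.mpr ⟨j, pow_ne_zero m hj⟩
  w_ne := a.w_ne
  eqn := by
    have h := a.eqn
    change a.w 1 ^ 2 * a.w 2 = a.w 0 ^ 3 +
      MvPolynomial.aeval a.u (MvPolynomial.expand m W.A) * a.w 0 * a.w 2 ^ 2 +
      MvPolynomial.aeval a.u (MvPolynomial.expand m W.B) * a.w 2 ^ 3 at h
    rw [aeval_expand, aeval_expand] at h
    exact h

theorem wt_pull (i : Fin 3) : wt (pull W m).N i = m * wt W.N i := by
  fin_cases i
  · change 2 * (m * W.N) = m * (2 * W.N)
    ring
  · change 3 * (m * W.N) = m * (3 * W.N)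
    ring
  · rfl

theorem same_down (hm : m ≠ 0) {a b : Coord (pull W m) K} (h : Same a b) :
    Same (downC hm a) (downC hm b) := by
  obtain ⟨l, c, hl, hc, h1, h2⟩ := h
  refine ⟨l ^ m, c, pow_ne_zero m hl, hc, fun i => ?_, fun i => ?_⟩
  · change b.u i ^ m = l ^ m * a.u i ^ m
    rw [h1, mul_pow]
  · change b.w i = (l ^ m) ^ wt W.N i * c * a.w i
    rw [h2, wt_pull, pow_mul]

theorem mk_down (hm : m ≠ 0) {a b : Coord (pull W m) K} (h : WPt.mk a = WPt.mk b) :
    (WPt.mk (downC hm a) : WPt W K) = WPt.mk (downC hm b) :=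
  mk_eq_iff.mpr (same_down hm (mk_eq_iff.mp h))

theorem down_neg (hm : m ≠ 0) (a : Coord (pull W m) K) :
    downC hm (negC a) = negC (downC hm a) := rfl

variable {g : k}

theorem rot_iter (hg : g ^ m = 1) (hm : m ≠ 0) (e : ℕ) (a : Coord (pull W m) K) :
    ∃ b : Coord (pull W m) K, (rot g hg hm)^[e] (WPt.mk a) = WPt.mk b ∧
      b.u 0 = algebraMap k K g ^ e * a.u 0 ∧ b.u 1 = a.u 1 ∧ b.w = a.w := by
  induction e with
  | zero => exact ⟨a, rfl, by rw [pow_zero, one_mul], rfl, rfl⟩
  | succ e ih =>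
    obtain ⟨b, h1, h2, h3, h4⟩ := ih
    refine ⟨rotC g hg hm b, ?_, ?_, h3, h4⟩
    · rw [iterate_succ_apply', h1, rot_mk]
    · change algebraMap k K g * b.u 0 = _
      rw [h2]
      ring

theorem mk_congr {a b : Coord (pull W m) K} {c : K} (hc : c ≠ 0) (h0 : b.u 0 = a.u 0)
    (h1 : b.u 1 = a.u 1) (h2 : ∀ i, b.w i = c * a.w i) : WPt.mk a = WPt.mk b := by
  refine mk_eq_iff.mpr ⟨1, c, one_ne_zero, hc, fun i => ?_, fun i => ?_⟩
  · rw [one_mul]
    fin_cases i
    · exact h0
    · exact h1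
  · rw [one_pow, one_mul]
    exact h2 i

theorem rot_period (hg : g ^ m = 1) (hm : m ≠ 0) (p : WPt (pull W m) K) :
    (rot g hg hm)^[m] p = p := by
  obtain ⟨a, rfl⟩ := exists_mk p
  obtain ⟨b, h1, h2, h3, h4⟩ := rot_iter hg hm m a
  rw [h1]
  refine (mk_congr one_ne_zero ?_ h3 (fun i => ?_)).symm
  · rw [h2, ← map_pow, hg, map_one, one_mul]
  · rw [one_mul, h4]

/-- The rotation fixes the points over `0` and over infinity. -/
theorem rot_fix (hg : g ^ m = 1) (hm : m ≠ 0) {a : Coord (pull W m) K}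
    (h : a.u 0 = 0 ∨ a.u 1 = 0) : rot g hg hm (WPt.mk a) = WPt.mk a := by
  rw [rot_mk]
  have hg0 : algebraMap k K g ≠ 0 := by
    rw [Ne, _root_.map_eq_zero]
    rintro rfl
    rw [zero_pow hm] at hg
    exact zero_ne_one hg
  rcases h with h | h
  · refine (mk_congr (a := a) (b := rotC g hg hm a) one_ne_zero ?_ rfl
      (fun i => (one_mul (a.w i)).symm)).symm
    change algebraMap k K g * a.u 0 = a.u 0
    rw [h, mul_zero]
  · refine (mk_eq_iff.mpr ⟨algebraMap k K g, 1, hg0, one_ne_zero, fun i => ?_, fun i => ?_⟩).symm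
    · fin_cases i
      · rfl
      · change a.u 1 = algebraMap k K g * a.u 1
        rw [h, mul_zero]
    · change a.w i = algebraMap k K g ^ wt (pull W m).N i * 1 * a.w i
      rw [wt_pull, pow_mul, ← map_pow, hg, map_one, one_pow, one_mul, one_mul]

end down

section lifts

variable {k : Type u} [Field k] {W : Wei k} {m n : ℕ}

/-- `q` is a lift of `p` to the base change, and the product of the coordinates is `w0`. -/
def Rel (hm : m ≠ 0) (w0 : k) (p : Fin n → WPt W k) (q : Fin n → WPt (pull W m) k) : Prop :=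
  ∃ a : Fin n → Coord (pull W m) k, (∀ i, (a i).u 1 = 1) ∧ (∏ i, (a i).u 0 = w0) ∧
    (∀ i, q i = WPt.mk (a i)) ∧ ∀ i, p i = WPt.mk (downC hm (a i))

theorem rel_unique {hm : m ≠ 0} {g : k} (hg : IsPrimitiveRoot g m) {w0 : k} (hw0 : w0 ≠ 0)
    {p : Fin n → WPt W k} {q q' : Fin n → WPt (pull W m) k} (h : Rel hm w0 p q)
    (h' : Rel hm w0 p q') :
    ∃ e : Fin n → ℕ, m ∣ ∑ i, e i ∧ ∀ i, q' i = (rot g hg.pow_eq_one hm)^[e i] (q i) := by
  obtain ⟨a, h1, h2, h3, h4⟩ := h
  obtain ⟨a', h1', h2', h3', h4'⟩ := h'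
  have hne : ∀ i, (a i).u 0 ≠ 0 := by
    rw [← h2, Finset.prod_ne_zero_iff] at hw0
    exact fun i => hw0 i (Finset.mem_univ i)
  have key : ∀ i, ∃ e : ℕ, g ^ e * (a i).u 0 = (a' i).u 0 ∧
      q' i = (rot g hg.pow_eq_one hm)^[e] (q i) := by
    intro i
    have e1 : (WPt.mk (downC hm (a i)) : WPt W k) = WPt.mk (downC hm (a' i)) := by
      rw [← h4, ← h4']
    obtain ⟨l, c, hl, hc, e2, e3⟩ := mk_eq_iff.mp e1
    have e4 : (a' i).u 1 ^ m = l * (a i).u 1 ^ m := e2 1
    rw [h1, h1', one_pow, mul_one] at e4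
    have e5 : (a' i).u 0 ^ m = l * (a i).u 0 ^ m := e2 0
    rw [← e4, one_mul] at e5
    have e6 : ((a' i).u 0 / (a i).u 0) ^ m = 1 := by
      rw [div_pow, e5, div_self (pow_ne_zero m (hne i))]
    have : NeZero m := ⟨hm⟩
    obtain ⟨e, -, he⟩ := hg.eq_pow_of_pow_eq_one e6
    have e7 : g ^ e * (a i).u 0 = (a' i).u 0 := by
      rw [he, div_mul_cancel₀ _ (hne i)]
    refine ⟨e, e7, ?_⟩
    obtain ⟨b, f1, f2, f3, f4⟩ := rot_iter hg.pow_eq_one hm e (a i)
    rw [h3, h3', f1]
    refine (mk_congr hc ?_ ?_ (fun j => ?_)).symm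
    · rw [f2]
      exact e7.symm
    · rw [f3, h1, h1']
    · rw [f4]
      have e8 : (a' i).w j = l ^ wt W.N j * c * (a i).w j := e3 j
      rw [e8, ← e4, one_pow, one_mul]
  choose e he hq using key
  refine ⟨e, ?_, hq⟩
  apply hg.dvd_of_pow_eq_one
  have e1 : (∏ i, g ^ e i) * ∏ i, (a i).u 0 = ∏ i, (a' i).u 0 := by
    rw [← Finset.prod_mul_distrib]
    exact Finset.prod_congr rfl fun i _ => he i
  rw [h2, h2', Finset.prod_pow_eq_pow_sum] at e1
  exact mul_right_cancel₀ hw0 (e1.trans (one_mul w0).symm)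

/-- Applying powers of a map to all variables of an eigenfunction. -/
theorem eig_iter {α : Type*} {r : α → α} {Ψ : (Fin n → α) → ℂ} {χ : ℂ}
    (hs : ∀ (p : Fin n → α) (i : Fin n), Ψ (update p i (r (p i))) = χ * Ψ p) (e : Fin n → ℕ)
    (p : Fin n → α) : Ψ (fun i => r^[e i] (p i)) = χ ^ (∑ i, e i) * Ψ p := by
  classical
  have h1 : ∀ (i : Fin n) (j : ℕ) (p : Fin n → α),
      Ψ (update p i (r^[j] (p i))) = χ ^ j * Ψ p := by
    intro i j
    induction j with
    | zero =>
      intro p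
      rw [iterate_zero_apply, update_eq_self, pow_zero, one_mul]
    | succ j ih =>
      intro p
      have h2 := hs (update p i (r^[j] (p i))) i
      rw [update_self, update_idem, ← iterate_succ_apply' r j, ih] at h2
      rw [h2]
      ring
  have h2 : ∀ s : Finset (Fin n),
      Ψ (fun i => if i ∈ s then r^[e i] (p i) else p i) = χ ^ (∑ i ∈ s, e i) * Ψ p := by
    intro s
    induction s using Finset.induction_on with
    | empty => simp
    | insert j s hj ih =>
      have h3 : (fun i => if i ∈ insert j s then r^[e i] (p i) else p i) =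
          update (fun i => if i ∈ s then r^[e i] (p i) else p i) j
            (r^[e j] ((fun i => if i ∈ s then r^[e i] (p i) else p i) j)) := by
        funext i
        by_cases hi : i = j
        · subst hi
          rw [update_self]
          simp [hj]
        · rw [update_of_ne hi]
          simp [hi]
      rw [h3, h1, ih, Finset.sum_insert hj, pow_add]
      ring
  have h3 := h2 Finset.univ
  simpa using h3

theorem eig_dvd {r : WPt (pull W m) k → WPt (pull W m) k} (hr : ∀ p, r^[m] p = p)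
    {Ψ : (Fin n → WPt (pull W m) k) → ℂ} {χ : ℂ}
    (hs : ∀ (p : Fin n → WPt (pull W m) k) (i : Fin n), Ψ (update p i (r (p i))) = χ * Ψ p)
    {e : Fin n → ℕ} (he : m ∣ ∑ i, e i) (p : Fin n → WPt (pull W m) k) :
    Ψ (fun i => r^[e i] (p i)) = Ψ p := by
  rw [eig_iter hs]
  rcases Nat.eq_zero_or_pos n with hn | hn
  · subst hn
    simp
  · obtain ⟨t, ht⟩ := he
    have h1 : ∀ p, χ ^ m * Ψ p = Ψ p := by
      intro p
      have h2 := eig_iter hs (Pi.single ⟨0, hn⟩ m) p
      have h3 : (fun i => r^[(Pi.single (⟨0, hn⟩ : Fin n) m : Fin n → ℕ) i] (p i)) = p := by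
        funext i
        by_cases hi : i = ⟨0, hn⟩
        · rw [hi, Pi.single_eq_same, hr]
        · rw [Pi.single_eq_of_ne hi]
          rfl
      rw [h3, Finset.sum_pi_single'] at h2
      simpa using h2.symm
    rw [ht, pow_mul]
    clear ht
    induction t with
    | zero => rw [pow_zero, one_mul]
    | succ t ih => rw [pow_succ, mul_assoc, h1, ih]

open Classical in
/-- The function on the power of the surface over the `u`-line: the value at any lift with product
of the coordinates `w0`, and zero if there is no such lift. -/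
noncomputable def phi (hm : m ≠ 0) (w0 : k) (Ψ : (Fin n → WPt (pull W m) k) → ℂ)
    (p : Fin n → WPt W k) : ℂ :=
  if h : ∃ q, Rel hm w0 p q then Ψ h.choose else 0

theorem phi_eq {hm : m ≠ 0} {g : k} (hg : IsPrimitiveRoot g m) {w0 : k} (hw0 : w0 ≠ 0)
    {Ψ : (Fin n → WPt (pull W m) k) → ℂ} {χ : ℂ}
    (hs : ∀ (p : Fin n → WPt (pull W m) k) (i : Fin n),
      Ψ (update p i (rot g hg.pow_eq_one hm (p i))) = χ * Ψ p)
    {p : Fin n → WPt W k} {q : Fin n → WPt (pull W m) k} (h : Rel hm w0 p q) :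
    phi hm w0 Ψ p = Ψ q := by
  have hex : ∃ q, Rel hm w0 p q := ⟨q, h⟩
  unfold phi
  rw [dif_pos hex]
  obtain ⟨e, he, hq⟩ := rel_unique hg hw0 h hex.choose_spec
  have h1 : hex.choose = fun i => (rot g hg.pow_eq_one hm)^[e i] (q i) := funext hq
  rw [h1]
  exact eig_dvd (rot_period hg.pow_eq_one hm) hs he q

theorem phi_zero {hm : m ≠ 0} {w0 : k} {Ψ : (Fin n → WPt (pull W m) k) → ℂ}
    {p : Fin n → WPt W k} (h : ¬ ∃ q, Rel hm w0 p q) : phi hm w0 Ψ p = 0 := by
  unfold phi
  rw [dif_neg h]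

theorem rel_neg {hm : m ≠ 0} {w0 : k} {p : Fin n → WPt W k} {q : Fin n → WPt (pull W m) k}
    (h : Rel hm w0 p q) (i : Fin n) :
    Rel hm w0 (update p i (neg (p i))) (update q i (neg (q i))) := by
  obtain ⟨a, h1, h2, h3, h4⟩ := h
  have e1 : ∀ j, (update a i (negC (a i)) j).u = (a j).u := by
    intro j
    by_cases hj : j = i
    · subst hj
      rw [update_self]
      rfl
    · rw [update_of_ne hj]
  refine ⟨update a i (negC (a i)), fun j => ?_, ?_, fun j => ?_, fun j => ?_⟩
  · rw [e1]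
    exact h1 j
  · simp only [e1]
    exact h2
  · by_cases hj : j = i
    · subst hj
      rw [update_self, update_self, h3, neg_mk]
    · rw [update_of_ne hj, update_of_ne hj, h3]
  · by_cases hj : j = i
    · subst hj
      rw [update_self, update_self, h4, neg_mk, down_neg]
    · rw [update_of_ne hj, update_of_ne hj, h4]

theorem rel_swap {hm : m ≠ 0} {w0 : k} {p : Fin n → WPt W k} {q : Fin n → WPt (pull W m) k}
    (h : Rel hm w0 p q) (σ : Equiv.Perm (Fin n)) :
    Rel hm w0 (fun l => p (σ l)) (fun l => q (σ l)) := by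
  obtain ⟨a, h1, h2, h3, h4⟩ := h
  refine ⟨fun l => a (σ l), fun j => h1 _, ?_, fun j => h3 _, fun j => h4 _⟩
  rw [← h2]
  exact Equiv.prod_comp σ (fun l => (a l).u 0)

end lifts

end CX.CHI
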