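import Mathlib
import Pool.Agent.Helper40.CX.CHI.Defs
import Pool.Agent.Helper40.CX.H83VN.Wei

/-!
# CHI: from odd functions to Voisin's property for a character

A function which is multiplied by `χ ≠ 1` under the automorphism `g` has an alternating part which is
odd in each variable: the even part does not depend on the variable (`even_const`).
-/

set_option autoImplicit false
set_option linter.unusedSectionVars false

namespace CX.CHI

open CX.VC CX.VF CX.VH Function
open CX.Pool.Agent.Helper51.EW (Wei Coord WPt Odd neg induced_neg neg_mk)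
open CX.Pool.Agent.Helper94.EW (even_const)

universe u

variable {k : Type u} [Field k] [IsAlgClosed k] [Good k]

/-- The alternating part of an eigenfunction is an eigenfunction. -/
theorem alt_equi {X : Variety k} {g : X.Pt → X.Pt} {χ : ℂ} {n : ℕ} {Φ : (X.pow n).Pt → ℂ}
    (h : ∀ (p : (X.pow n).Pt) (i : Fin n), Φ (update p i (g (p i))) = χ * Φ p)
    (p : (X.pow n).Pt) (i : Fin n) : alt Φ (update p i (g (p i))) = χ * alt Φ p := by
  unfold alt
  rw [Finset.mul_sum]
  refine Finset.sum_congr rfl fun σ _ => ?_
  have h1 : (fun l => (update p i (g (p i)) : (X.pow n).Pt) (σ l)) =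
      update (fun l => p (σ l)) (σ.symm i) (g ((fun l => p (σ l)) (σ.symm i))) := by
    funext l
    by_cases hl : l = σ.symm i
    · subst hl
      rw [update_self]
      beta_reduce
      rw [Equiv.apply_symm_apply, update_self]
    · rw [update_of_ne hl]
      have : σ l ≠ i := by
        intro h2
        apply hl
        rw [← h2, Equiv.symm_apply_apply]
      rw [update_of_ne this]
  rw [h1, h]
  ring

theorem voisinChi_of_odd {W : Wei k} {g : W.surface.Pt → W.surface.Pt} {χ : ℂ} (hχ : χ ≠ 1)
    {n : ℕ} (hgn : ∀ p, g (neg p) = neg (g p))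
    (H : ∀ Ψ : (W.surface.pow n).Pt → ℂ, Odd W n Ψ →
      (∀ (p : (W.surface.pow n).Pt) (i : Fin n), Ψ (update p i (g (p i))) = χ * Ψ p) →
      ∀ p, Ψ p = 0) :
    VoisinChi W.surface g χ n := by
  intro Φ hΦ heq p
  have hconst : ∀ (K : Type u) [Field K] [Algebra k K] (hK : IsFunctionField k K)
      (p : W.surface.Pt), ∃ c : W.surface.Mor K, ∀ v, W.surface.eval hK c v = p :=
    fun K _ _ hK q => CX.Pool.Agent.Helper51.EW.exists_const K hK q
  have hk := kills_alt hΦ
  have he := alt_equi heq
  have hodd : ∀ (q : (W.surface.pow n).Pt) (i : Fin n),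
      alt Φ (update q i (neg (q i))) = -alt Φ q := by
    intro q i
    have k1 : Kills W.surface (fun x => alt Φ (update q i x)) :=
      hk.comp (induced_update W.surface q hconst i)
    have k2 : Kills W.surface (fun x => alt Φ (update q i x) + alt Φ (update q i (neg x))) :=
      k1.add (k1.comp induced_neg)
    have e1 : ∀ x, alt Φ (update q i x) + alt Φ (update q i (neg x)) =
        alt Φ (update q i (neg x)) + alt Φ (update q i (neg (neg x))) := by
      intro x
      rw [CX.Pool.Agent.Helper51.EW.neg_neg' x, add_comm]
    have e2 := even_const k2 (fun x => (e1 x).symm) (g (q i)) (q i)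
    have e3 : ∀ x, alt Φ (update q i (g x)) = χ * alt Φ (update q i x) := by
      intro x
      have := he (update q i x) i
      rw [update_self, update_idem] at this
      exact this
    beta_reduce at e2
    rw [← hgn, e3, e3, ← mul_add] at e2
    have e4 : (χ - 1) * (alt Φ (update q i (q i)) + alt Φ (update q i (neg (q i)))) = 0 := by
      linear_combination e2
    have e5 := (mul_eq_zero.mp e4).resolve_left (sub_ne_zero.mpr hχ)
    rw [update_eq_self] at e5
    linear_combination e5
  have h0 := H (alt Φ) ⟨hk, hodd, fun i j hij q => alt_swap Φ i j hij q⟩ he p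
  unfold alt at h0
  rw [← h0]
  refine Finset.sum_congr rfl fun σ _ => ?_
  rw [zsmul_eq_mul]

theorem rot_neg {W : Wei k} {m : ℕ} {K : Type u} [Field K] [Algebra k K] (g : k) (hg : g ^ m = 1)
    (hm : m ≠ 0) (p : WPt (pull W m) K) :
    rot g hg hm (neg p) = neg (rot g hg hm p) := by
  obtain ⟨a, rfl⟩ := CX.Pool.Agent.Helper51.EW.exists_mk p
  rw [neg_mk, rot_mk, rot_mk, neg_mk]
  rfl

end CX.CHI
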