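import Mathlib
import Pool.Agent.Helper98.CHI.Down
import Pool.Agent.Helper83.CHI.Cor
import Pool.Agent.Helper83.CHI.Std

/-!
# CHI: block PHI, the function over the `u`-line

`phi` kills the curves on which the product of the coordinates of the base is constant: such a curve
lifts to the base change over the field generated by the `m`-th roots.
-/

set_option autoImplicit false
set_option linter.unusedSectionVars false

namespace CX.CHI

open CX.VC CX.VF Function
open CX.Pool.Agent.Helper51.EW CX.Pool.Agent.Helper51.VN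
open CX.Pool.Agent.Helper83.CHI (Cor OddC IsStd Prc)

universe u

section std

variable {k : Type u} [Field k] {W : Wei k} {m : ℕ} {K : Type u} [Field K] [Algebra k K]

theorem std_base {D : Cor W} (hD : IsStd D) (T : K) : D.base T = ![T, 1] := by
  funext i
  change algebraMap k K (D.e0 i) + T * algebraMap k K (D.e1 i) = _
  rw [hD.1, hD.2]
  fin_cases i
  · change algebraMap k K 0 + T * algebraMap k K 1 = T
    rw [map_zero, map_one, zero_add, mul_one]
  · change algebraMap k K 1 + T * algebraMap k K 0 = 1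
    rw [map_zero, map_one, mul_zero, add_zero]

theorem cor_base_ne (D : Cor W) (T : K) : D.base T ≠ 0 := by
  intro h
  have h0 : algebraMap k K (D.e0 0) + T * algebraMap k K (D.e1 0) = 0 := congrFun h 0
  have h1 : algebraMap k K (D.e0 1) + T * algebraMap k K (D.e1 1) = 0 := congrFun h 1
  apply D.det
  apply (algebraMap k K).injective
  rw [map_sub, map_mul, map_mul, map_zero]
  linear_combination algebraMap k K (D.e1 1) * h0 - algebraMap k K (D.e1 0) * h1

theorem cor_base_eqn (D : Cor W) {T x y : K} (h : OnE (D.a T) (D.b T) x y) :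
    y ^ 2 = x ^ 3 + MvPolynomial.aeval (D.base T) W.A * x + MvPolynomial.aeval (D.base T) W.B := by
  have e1 : MvPolynomial.aeval (D.base T) W.A = -3 * D.a T := D.hA K T
  have e2 : MvPolynomial.aeval (D.base T) W.B = -2 * D.b T := D.hB K T
  unfold OnE at h
  rw [h, e1, e2]
  ring

theorem pt_mk (D : Cor W) {T x y : K} (h : OnE (D.a T) (D.b T) x y) :
    D.pt T x y = WPt.mk (affC (D.base T) x y (cor_base_ne D T) (cor_base_eqn D h)) :=
  apt_eq (cor_base_ne D T) (cor_base_eqn D h)

variable [Good k]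

theorem onE_std {D : Cor W} (hD : IsStd D) {D' : Cor (pull W m)} (hD' : IsStd D') {T x y : K} :
    OnE (D'.a T) (D'.b T) x y ↔ OnE (D.a (T ^ m)) (D.b (T ^ m)) x y := by
  have : CX.Good K := CX.Good.ext k
  have h3 : (3 : K) ≠ 0 := CX.Good.three
  have h2 : (2 : K) ≠ 0 := CX.Good.two
  have e1 : MvPolynomial.aeval (D.base (T ^ m)) W.A = -3 * D.a (T ^ m) := D.hA K (T ^ m)
  have e2 : MvPolynomial.aeval (D.base (T ^ m)) W.B = -2 * D.b (T ^ m) := D.hB K (T ^ m)
  have e1' : MvPolynomial.aeval (D'.base T) (MvPolynomial.expand m W.A) = -3 * D'.a T := D'.hA K T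
  have e2' : MvPolynomial.aeval (D'.base T) (MvPolynomial.expand m W.B) = -2 * D'.b T := D'.hB K T
  have e3 : (fun i => D'.base T i ^ m) = D.base (T ^ m) := by
    rw [std_base hD, std_base hD']
    funext i
    fin_cases i
    · rfl
    · exact one_pow m
  rw [aeval_expand, e3, e1] at e1'
  rw [aeval_expand, e3, e2] at e2'
  have f1 : D'.a T = D.a (T ^ m) := (mul_left_cancel₀ (neg_ne_zero.mpr h3) e1').symm
  have f2 : D'.b T = D.b (T ^ m) := (mul_left_cancel₀ (neg_ne_zero.mpr h2) e2').symm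
  rw [f1, f2]

/-- The projection of an affine point. -/
theorem down_pt {D : Cor W} (hD : IsStd D) {D' : Cor (pull W m)} (hD' : IsStd D') (hm : m ≠ 0)
    {T x y : K} (h : OnE (D'.a T) (D'.b T) x y) :
    D.pt (T ^ m) x y =
      WPt.mk (downC hm (affC (D'.base T) x y (cor_base_ne D' T) (cor_base_eqn D' h))) := by
  rw [pt_mk D ((onE_std hD hD').mp h)]
  refine mk_eq_iff.mpr ⟨1, 1, one_ne_zero, one_ne_zero, fun i => ?_, fun i => ?_⟩
  · change D'.base T i ^ m = 1 * D.base (T ^ m) i
    rw [std_base hD, std_base hD', one_mul]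
    fin_cases i
    · rfl
    · exact one_pow m
  · rw [one_pow, one_mul, one_mul]
    rfl

end std

section main

variable {k : Type u} [Field k] [IsAlgClosed k] [Good k] {W : Wei k} {m n : ℕ}

/-- An eigenfunction vanishes if a component lies over `0` or over infinity. -/
theorem psi_fix {hm : m ≠ 0} {g : k} (hg : g ^ m = 1)
    {Ψ : (Fin n → WPt (pull W m) k) → ℂ} {χ : ℂ} (hχ : χ ≠ 1)
    (hs : ∀ (p : Fin n → WPt (pull W m) k) (i : Fin n),
      Ψ (update p i (rot g hg hm (p i))) = χ * Ψ p)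
    {q : Fin n → WPt (pull W m) k} {i : Fin n} {a : Coord (pull W m) k} (hq : q i = WPt.mk a)
    (h : a.u 0 = 0 ∨ a.u 1 = 0) : Ψ q = 0 := by
  have h1 := hs q i
  rw [hq, rot_fix hg hm h, ← hq, update_eq_self] at h1
  have h2 : (χ - 1) * Ψ q = 0 := by linear_combination -h1
  exact (mul_eq_zero.mp h2).resolve_left (sub_ne_zero.mpr hχ)

/-- A tuple with a lift has no component over `0` or infinity. -/
theorem rel_ne {hm : m ≠ 0} {w0 : k} (hw0 : w0 ≠ 0) {p : Fin n → WPt W k}
    {q : Fin n → WPt (pull W m) k} (h : Rel hm w0 p q) {i : Fin n} {a : Coord W k}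
    (ha : p i = WPt.mk a) : a.u 0 ≠ 0 ∧ a.u 1 ≠ 0 := by
  obtain ⟨b, h1, h2, h3, h4⟩ := h
  have hne : (b i).u 0 ≠ 0 := by
    rw [← h2, Finset.prod_ne_zero_iff] at hw0
    exact hw0 i (Finset.mem_univ i)
  have e1 : (WPt.mk a : WPt W k) = WPt.mk (downC hm (b i)) := by
    rw [← ha, h4]
  obtain ⟨l, c, hl, hc, e2, e3⟩ := mk_eq_iff.mp e1
  have f0 : (b i).u 0 ^ m = l * a.u 0 := e2 0
  have f1 : (b i).u 1 ^ m = l * a.u 1 := e2 1
  refine ⟨fun h0 => ?_, fun h0 => ?_⟩
  · rw [h0, mul_zero] at f0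
    exact pow_ne_zero m hne f0
  · rw [h0, mul_zero, h1, one_pow] at f1
    exact one_ne_zero f1

/-- The coordinates of the value of an affine point of the base change at a place. -/
theorem val_coords {K : Type u} [Field K] [Algebra k K] (hK : IsFunctionField k K)
    {D' : Cor (pull W m)} (hD' : IsStd D') {T x y : K} (h : OnE (D'.a T) (D'.b T) x y)
    (v : Place k K) : ∃ (a : Coord (pull W m) K) (b : Coord (pull W m) k),
      WPt.mk (affC (D'.base T) x y (cor_base_ne D' T) (cor_base_eqn D' h)) = WPt.mk a ∧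
      (pull W m).surface.eval hK (D'.pt T x y) v = WPt.mk b ∧
      (∀ i, IsRes v (a.u i) (b.u i)) ∧ (∀ i, IsRes v (a.w i) (b.w i)) ∧
      (b.u 1 ≠ 0 → IsRes v T (b.u 0 * (b.u 1)⁻¹)) := by
  obtain ⟨a, b, h1, h2, h3, h4⟩ := exists_coords hK v (D'.pt T x y)
  rw [pt_mk D' h] at h1
  refine ⟨a, b, h1, h2, h3, h4, fun hb => ?_⟩
  obtain ⟨l, c, hl, hc, e1, e2⟩ := mk_eq_iff.mp h1
  have f0 : a.u 0 = l * D'.base T 0 := e1 0
  have f1 : a.u 1 = l * D'.base T 1 := e1 1
  rw [std_base hD'] at f0 f1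
  change a.u 0 = l * T at f0
  change a.u 1 = l * 1 at f1
  have e3 : T = a.u 0 * (a.u 1)⁻¹ := by
    rw [f0, f1]
    field_simp
  rw [e3]
  exact (h3 0).mul ((h3 1).inv hK hb)

/-- The value of the projection of an affine point. -/
theorem val_down {K : Type u} [Field K] [Algebra k K] (hK : IsFunctionField k K)
    {D : Cor W} (hD : IsStd D) {D' : Cor (pull W m)} (hD' : IsStd D') (hm : m ≠ 0) {T x y : K}
    (h : OnE (D'.a T) (D'.b T) x y) (v : Place k K) {b : Coord (pull W m) k}
    (hb : (pull W m).surface.eval hK (D'.pt T x y) v = WPt.mk b) :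
    W.surface.eval hK (D.pt (T ^ m) x y) v = WPt.mk (downC hm b) := by
  obtain ⟨a, b', h1, h2, h3, h4, -⟩ := val_coords hK hD' h v
  rw [down_pt hD hD' hm h, mk_down hm h1,
    eval_eq hK v (downC hm a) (downC hm b') (fun i => (h3 i).pow m) h4]
  apply mk_down
  rw [← h2, hb]

/-- The value of `phi` at the value of a curve. -/
theorem phi_val {hm : m ≠ 0} {g : k} (hg : IsPrimitiveRoot g m) {D : Cor W} (hD : IsStd D)
    {D' : Cor (pull W m)} (hD' : IsStd D') {Ψ : (Fin n → WPt (pull W m) k) → ℂ} {χ : ℂ}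
    (hχ : χ ≠ 1)
    (hs : ∀ (p : Fin n → WPt (pull W m) k) (i : Fin n),
      Ψ (update p i (rot g hg.pow_eq_one hm (p i))) = χ * Ψ p) {w0 : k} (hw0 : w0 ≠ 0)
    {K : Type u} [Field K] [Algebra k K] (hK : IsFunctionField k K) {T x y : Fin n → K}
    (h : ∀ i, OnE (D'.a (T i)) (D'.b (T i)) (x i) (y i)) (hT : ∏ i, T i = algebraMap k K w0)
    (v : Place k K) :
    phi hm w0 Ψ (fun i => W.surface.eval hK (D.pt (T i ^ m) (x i) (y i)) v) =
      Ψ (fun i => (pull W m).surface.eval hK (D'.pt (T i) (x i) (y i)) v) := by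
  choose a b h1 h2 h3 h4 h5 using fun i => val_coords hK hD' (h i) v
  have hdown : ∀ i, W.surface.eval hK (D.pt (T i ^ m) (x i) (y i)) v =
      WPt.mk (downC hm (b i)) := fun i => val_down hK hD hD' hm (h i) v (h2 i)
  by_cases hgood : ∀ i, (b i).u 0 ≠ 0 ∧ (b i).u 1 ≠ 0
  · apply phi_eq hg hw0 hs
    refine ⟨fun i => scale (b i) ((b i).u 1)⁻¹ 1 (inv_ne_zero (hgood i).2) one_ne_zero,
      fun i => ?_, ?_, fun i => ?_, fun i => ?_⟩
    · change ((b i).u 1)⁻¹ * (b i).u 1 = 1
      exact inv_mul_cancel₀ (hgood i).2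
    · change ∏ i, ((b i).u 1)⁻¹ * (b i).u 0 = w0
      have e1 : IsRes v (∏ i, T i) (∏ i, ((b i).u 0 * ((b i).u 1)⁻¹)) := by
        have : ∀ s : Finset (Fin n), IsRes v (∏ i ∈ s, T i)
            (∏ i ∈ s, ((b i).u 0 * ((b i).u 1)⁻¹)) := by
          intro s
          induction s using Finset.induction_on with
          | empty => exact isRes_one
          | insert j s hj ih =>
            rw [Finset.prod_insert hj, Finset.prod_insert hj]
            exact (h5 j (hgood j).2).mul ih
        exact this Finset.univ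
      rw [hT] at e1
      rw [(isRes_const (v := v) w0).unique e1]
      exact Finset.prod_congr rfl fun i _ => mul_comm _ _
    · rw [same_scale]
      exact h2 i
    · beta_reduce
      rw [hdown i]
      exact mk_down hm (same_scale (b i) _ 1 (inv_ne_zero (hgood i).2) one_ne_zero).symm
  · push Not at hgood
    obtain ⟨i, hi⟩ := hgood
    have hi' : (b i).u 0 = 0 ∨ (b i).u 1 = 0 := by
      by_cases h0 : (b i).u 0 = 0
      · exact Or.inl h0
      · exact Or.inr (hi h0)
    rw [psi_fix hg.pow_eq_one hχ hs (i := i) (h2 i) hi']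
    apply phi_zero
    rintro ⟨q, hq⟩
    obtain ⟨f0, f1⟩ := rel_ne hw0 hq (i := i) (hdown i)
    rcases hi' with h0 | h0
    · apply f0
      change (b i).u 0 ^ m = 0
      rw [h0, zero_pow hm]
    · apply f1
      change (b i).u 1 ^ m = 0
      rw [h0, zero_pow hm]

end main

end CX.CHI
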