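import Mathlib
import Pool.Agent.Helper98.CHI.Phi

/-!
# CHI: block PHI, the function over the `u`-line (final theorem)
-/

set_option autoImplicit false
set_option linter.unusedSectionVars false

namespace CX.CHI

open CX.VC CX.VF Function
open CX.Pool.Agent.Helper51.EW CX.Pool.Agent.Helper51.VN
open CX.Pool.Agent.Helper83.CHI (Cor OddC IsStd Prc)

universe u

variable {k : Type u} [Field k] [IsAlgClosed k] [Good k] {W : Wei k} {m n : ℕ}

section ext

variable {K L : Type u} [Field K] [Algebra k K] [Field L] [Algebra k L] [Algebra K L]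
  [IsScalarTower k K L]

theorem cor_a_map (D : Cor W) (t : K) : D.a (algebraMap K L t) = algebraMap K L (D.a t) :=
  Polynomial.aeval_algebraMap_apply L t D.al

theorem cor_b_map (D : Cor W) (t : K) : D.b (algebraMap K L t) = algebraMap K L (D.b t) :=
  Polynomial.aeval_algebraMap_apply L t D.be

theorem onE_map (D : Cor W) {t x y : K} (h : OnE (D.a t) (D.b t) x y) :
    OnE (D.a (algebraMap K L t)) (D.b (algebraMap K L t)) (algebraMap K L x)
      (algebraMap K L y) := by
  rw [cor_a_map, cor_b_map]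
  unfold OnE at h ⊢
  have := congrArg (algebraMap K L) h
  simpa only [map_pow, map_sub, map_mul, map_ofNat] using this

theorem wmap_pt (D : Cor W) {t x y : K} (h : OnE (D.a t) (D.b t) x y) :
    CX.Pool.Agent.Helper83.QF.wmap (IsScalarTower.toAlgHom k K L) (D.pt t x y) =
      D.pt (algebraMap K L t) (algebraMap K L x) (algebraMap K L y) := by
  rw [pt_mk D h, pt_mk D (onE_map (L := L) D h), CX.Pool.Agent.Helper83.QF.wmap_mk]
  refine mk_eq_iff.mpr ⟨1, 1, one_ne_zero, one_ne_zero, fun i => ?_, fun i => ?_⟩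
  · rw [one_mul]
    change algebraMap k L (D.e0 i) + algebraMap K L t * algebraMap k L (D.e1 i) =
      algebraMap K L (algebraMap k K (D.e0 i) + t * algebraMap k K (D.e1 i))
    rw [map_add, map_mul, ← IsScalarTower.algebraMap_apply, ← IsScalarTower.algebraMap_apply]
  · rw [one_pow, one_mul, one_mul]
    fin_cases i
    · rfl
    · rfl
    · exact (map_one (algebraMap K L)).symm

end ext

theorem phi_gen {hm : m ≠ 0} {g : k} (hg : IsPrimitiveRoot g m) {D : Cor W} (hD : IsStd D)
    {D' : Cor (pull W m)} (hD' : IsStd D') {Ψ : ((pull W m).surface.pow n).Pt → ℂ}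
    (hk : Kills ((pull W m).surface.pow n) Ψ) {χ : ℂ} (hχ : χ ≠ 1)
    (hs : ∀ (p : Fin n → WPt (pull W m) k) (i : Fin n),
      Ψ (update p i (rot g hg.pow_eq_one hm (p i))) = χ * Ψ p) {w0 : k} (hw0 : w0 ≠ 0)
    (K : Type u) [Field K] [Algebra k K] (hK : IsFunctionField k K) (t x y : Fin n → K)
    (hE : ∀ i, OnE (D.a (t i)) (D.b (t i)) (x i) (y i)) (ht : ∏ i, t i = algebraMap k K (w0 ^ m))
    (f : K) (hf : f ≠ 0) :
    ∑ w ∈ (finite_support_ord hK hf).toFinset, (ord w.ring f : ℂ) *
      phi hm w0 Ψ ((W.surface.pow n).eval hK (fun i => D.pt (t i) (x i) (y i)) w) = 0 := by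
  classical
  rcases Nat.eq_zero_or_pos n with hn | hn
  · subst hn
    by_cases hR : ∃ q, Rel hm w0 (fun i : Fin 0 => (i.elim0 : WPt W k)) q
    · obtain ⟨q, hq⟩ := hR
      have h1 := hk.gen hK (fun i : Fin 0 => (i.elim0 : WPt (pull W m) K)) hf
      rw [← h1]
      refine Finset.sum_congr rfl fun w _ => ?_
      congr 1
      have e1 : (W.surface.pow 0).eval hK (fun i => D.pt (t i) (x i) (y i)) w =
          fun i : Fin 0 => (i.elim0 : WPt W k) := funext fun i => i.elim0
      have e2 : ((pull W m).surface.pow 0).eval hK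
          (fun i : Fin 0 => (i.elim0 : WPt (pull W m) K)) w = q := funext fun i => i.elim0
      rw [e1, e2]
      exact phi_eq hg hw0 hs hq
    · apply Finset.sum_eq_zero
      intro w _
      have e1 : (W.surface.pow 0).eval hK (fun i => D.pt (t i) (x i) (y i)) w =
          fun i : Fin 0 => (i.elim0 : WPt W k) := funext fun i => i.elim0
      rw [e1, phi_zero hR, mul_zero]
  · obtain ⟨L, _, _, _, _, τ, hL, hτ⟩ := exists_roots hK hm t
    have hw0' : algebraMap k L w0 ≠ 0 := by
      rw [Ne, _root_.map_eq_zero]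
      exact hw0
    have hP : (∏ i, τ i) ^ m = algebraMap k L w0 ^ m := by
      rw [← Finset.prod_pow, Finset.prod_congr rfl fun i _ => hτ i, ← map_prod, ht,
        ← IsScalarTower.algebraMap_apply, map_pow]
    have hgL : IsPrimitiveRoot (algebraMap k L g) m :=
      hg.map_of_injective (algebraMap k L).injective
    have : NeZero m := ⟨hm⟩
    obtain ⟨e, -, he⟩ := hgL.eq_pow_of_pow_eq_one (ξ := (∏ i, τ i) / algebraMap k L w0) (by
      rw [div_pow, hP, div_self (pow_ne_zero m hw0')])
    have hg0 : algebraMap k L g ≠ 0 := hgL.ne_zero hm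
    obtain ⟨T, hTdef⟩ : ∃ T : Fin n → L, T =
        update τ ⟨0, hn⟩ ((algebraMap k L g ^ e)⁻¹ * τ ⟨0, hn⟩) := ⟨_, rfl⟩
    have hTm : ∀ i, T i ^ m = algebraMap K L (t i) := by
      intro i
      rw [hTdef]
      by_cases hi : i = ⟨0, hn⟩
      · subst hi
        rw [update_self, mul_pow, inv_pow, ← pow_mul, mul_comm e m, pow_mul, hgL.pow_eq_one,
          one_pow, inv_one, one_mul, hτ]
      · rw [update_of_ne hi, hτ]
    have hTp : ∏ i, T i = algebraMap k L w0 := by
      rw [hTdef, Finset.prod_update_of_mem (Finset.mem_univ _), mul_assoc]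
      have h1 : τ ⟨0, hn⟩ * ∏ i ∈ Finset.univ \ {(⟨0, hn⟩ : Fin n)}, τ i = ∏ i, τ i := by
        rw [← Finset.prod_update_of_mem (Finset.mem_univ _), update_eq_self]
      rw [h1, he]
      rw [inv_div]
      have h2 : (∏ i, τ i) ≠ 0 := by
        intro h0
        rw [h0, zero_pow hm] at hP
        exact pow_ne_zero m hw0' hP.symm
      exact div_mul_cancel₀ _ h2
    have hE' : ∀ i, OnE (D'.a (T i)) (D'.b (T i)) (algebraMap K L (x i)) (algebraMap K L (y i)) := by
      intro i
      rw [onE_std hD hD', hTm]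
      exact onE_map D (hE i)
    have hf' : algebraMap K L f ≠ 0 := by
      rw [Ne, _root_.map_eq_zero]
      exact hf
    have h1 := hk.gen hL (fun i => D'.pt (T i) (algebraMap K L (x i)) (algebraMap K L (y i))) hf'
    refine CX.Pool.Agent.Helper83.QF.kills_res hK hL (fun v => phi hm w0 Ψ
      ((W.surface.pow n).eval hK (fun i => D.pt (t i) (x i) (y i)) v)) hf hf' ?_
    rw [← h1]
    refine Finset.sum_congr rfl fun w _ => ?_
    congr 1
    have h2 := phi_val (hm := hm) hg hD hD' hχ hs hw0 hL hE' hTp w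
    change phi hm w0 Ψ (fun i => W.surface.eval hK (D.pt (t i) (x i) (y i)) (VQ.res hK hL w)) =
      Ψ (fun i => (pull W m).surface.eval hL
        (D'.pt (T i) (algebraMap K L (x i)) (algebraMap K L (y i))) w)
    rw [← h2]
    congr 1
    funext i
    rw [← CX.Pool.Agent.Helper83.QF.wmap_eval hK hL, wmap_pt D (hE i), hTm]

theorem exists_phi {W : Wei k} {m n : ℕ} (hm : m ≠ 0) (_hmk : (m : k) ≠ 0) {g : k}
    (hg : IsPrimitiveRoot g m) {D : Cor W} (hD : IsStd D) {D' : Cor (pull W m)} (hD' : IsStd D')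
    {Psi : ((pull W m).surface.pow n).Pt → ℂ} (h : Odd (pull W m) n Psi) {chi : ℂ}
    (hchi : chi ≠ 1)
    (hs : ∀ (p : ((pull W m).surface.pow n).Pt) (i : Fin n),
      Psi (update p i (rot g hg.pow_eq_one hm (p i))) = chi * Psi p) {w0 : k} (hw0 : w0 ≠ 0) :
    ∃ Phi : (W.surface.pow n).Pt → ℂ, OddC D n (w0 ^ m) Phi ∧
      ∀ w x y : Fin n → k, (∀ i, OnE (D'.a (w i)) (D'.b (w i)) (x i) (y i)) → ∏ i, w i = w0 →
        Phi (fun i => D.pt (w i ^ m) (x i) (y i)) = Psi (fun i => D'.pt (w i) (x i) (y i)) := by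
  classical
  refine ⟨phi hm w0 Psi, ⟨?_, ?_, ?_, ?_, ?_⟩, ?_⟩
  · intro K _ _ hK t x y hE ht f hf
    exact phi_gen hg hD hD' h.kills hchi hs hw0 K hK t x y hE ht f hf
  · intro p i
    by_cases hR : ∃ q, Rel hm w0 p q
    · obtain ⟨q, hq⟩ := hR
      rw [phi_eq hg hw0 hs hq, phi_eq hg hw0 hs (rel_neg hq i)]
      exact h.odd q i
    · rw [phi_zero hR, phi_zero, neg_zero]
      rintro ⟨q, hq⟩
      apply hR
      have h1 := rel_neg hq i
      rw [update_self, update_idem, neg_neg', update_eq_self] at h1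
      exact ⟨_, h1⟩
  · intro i j hij p
    by_cases hR : ∃ q, Rel hm w0 p q
    · obtain ⟨q, hq⟩ := hR
      rw [phi_eq hg hw0 hs hq, phi_eq hg hw0 hs (rel_swap hq (Equiv.swap i j))]
      exact h.alt i j hij q
    · rw [phi_zero hR, phi_zero, neg_zero]
      rintro ⟨q, hq⟩
      apply hR
      have h1 := rel_swap hq (Equiv.swap i j)
      have h2 : (fun l => p (Equiv.swap i j (Equiv.swap i j l))) = p := by
        funext l
        rw [Equiv.swap_apply_self]
      rw [h2] at h1
      exact ⟨_, h1⟩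
  · intro p i a ha hsing
    by_cases hR : ∃ q, Rel hm w0 p q
    · obtain ⟨q, hq⟩ := hR
      rw [phi_eq hg hw0 hs hq]
      obtain ⟨b, h1, h2, h3, h4⟩ := hq
      have e1 : (WPt.mk a : WPt W k) = WPt.mk (downC hm (b i)) := by
        rw [← ha, h4]
      obtain ⟨l, c, hl, hc, e2, e3⟩ := mk_eq_iff.mp e1
      refine CX.Pool.Agent.Helper83.VN.odd_sing h (i := i) (h3 i) ?_
      have e4 : (fun s => (b i).u s ^ m) = fun s => l * a.u s := funext fun s => e2 s
      change 4 * MvPolynomial.aeval (b i).u (MvPolynomial.expand m W.A) ^ 3 +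
        27 * MvPolynomial.aeval (b i).u (MvPolynomial.expand m W.B) ^ 2 = 0
      rw [aeval_expand, aeval_expand, e4, aeval_smul W.hA, aeval_smul W.hB]
      linear_combination l ^ (12 * W.N) * hsing
    · exact phi_zero hR
  · intro p i a ha hinf
    apply phi_zero
    rintro ⟨q, hq⟩
    obtain ⟨-, f1⟩ := rel_ne hw0 hq (i := i) ha
    rw [hD.2] at hinf
    change a.u 0 * 0 - a.u 1 * 1 = 0 at hinf
    apply f1
    linear_combination -hinf
  · intro w x y hE hw
    have hE' : ∀ i, D'.pt (w i) (x i) (y i) = WPt.mk (affC (D'.base (w i)) (x i) (y i)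
      (cor_base_ne D' (w i)) (cor_base_eqn D' (hE i))) := fun i => pt_mk D' (hE i)
    apply phi_eq hg hw0 hs
    refine ⟨fun i => affC (D'.base (w i)) (x i) (y i) (cor_base_ne D' (w i))
      (cor_base_eqn D' (hE i)), fun i => ?_, ?_, hE', fun i => down_pt hD hD' hm (hE i)⟩
    · change D'.base (w i) 1 = 1
      rw [std_base hD']
      rfl
    · rw [← hw]
      refine Finset.prod_congr rfl fun i _ => ?_
      change D'.base (w i) 0 = w i
      rw [std_base hD']
      rfl

end CX.CHI
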