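import Mathlib
import Pool.Agent.Helper83.CHI.Mv3
import Pool.Agent.Helper98.CHI.Cor

/-!
# CHI: Voisin's property for the characters of a cyclic base change of a Weierstrass surface
-/

set_option autoImplicit false
set_option linter.unusedSectionVars false

namespace CX.CHI

open CX.VC CX.VF Function
open CX.Pool.Agent.Helper51.EW (Wei)

universe u

variable {k : Type u} [Field k] [IsAlgClosed k] [Good k]

/-- Voisin's property for the character `χ ≠ 1` of the rotation of the cyclic base change of degree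
`m` of a Weierstrass surface with non-constant `j`, and `n > W.N`. -/
theorem voisinChi_wei {W : Wei k} {m n : ℕ} (hm : m ≠ 0) (hmk : (m : k) ≠ 0) {g : k}
    (hg : IsPrimitiveRoot g m) (h1 : 1 ≤ W.N) (hn : W.N + 1 ≤ n)
    (hj : ∀ c d : k, (c ≠ 0 ∨ d ≠ 0) →
      MvPolynomial.C c * W.A ^ 3 ≠ MvPolynomial.C d * W.B ^ 2) {χ : ℂ} (hχ : χ ≠ 1) :
    VoisinChi (pull W m).surface (rot g hg.pow_eq_one hm) χ n :=
  voisinChi_of_odd hχ (fun p => rot_neg g hg.pow_eq_one hm p) fun _ h hs p =>
    CX.Pool.Agent.Helper83.CHI.chi_zero hm hmk hg h1 hn hj h hχ hs p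

end CX.CHI
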